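import Mathlib
import Pool.Agent.H54.DualBoundAux

/-!
# Polynomial dual bound for a single monotone polynomial inequality

The number of minimal infeasible vectors of `f(x) ≤ t` that are minimal vectors not below any
member of a family `Y` of maximal feasible vectors is at most
`2 n |Y|^2 (n + 2 m n^2 |Y| + m n (n+1) + m)`, where `m` is the number of monomials of `f`.
-/

namespace Pool.Agent.Results.MP_51bff2_lc.DualBound

open Finset Pool.Agent.H54.DualBoundAux

/-- `f(x) = ∑_H a_H ∏_{j ∈ H} x_j ^ d_{H,j}`, the finite multiset of the sets `H` being indexed by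
`Fin m`. -/
def polyVal {n m : ℕ} (H : Fin m → Finset (Fin n)) (a : Fin m → ℝ) (d : Fin m → Fin n → ℕ)
    (x : Fin n → ℕ) : ℝ :=
  ∑ i, a i * ∏ j ∈ H i, (x j : ℝ) ^ d i j

/-- The maximal feasible vectors of the inequality `f(x) ≤ t` in the box `{x : 0 ≤ x ≤ c}`. -/
def MaxFeasible {n : ℕ} (c : Fin n → ℕ) (f : (Fin n → ℕ) → ℝ) (t : ℝ) : Set (Fin n → ℕ) :=
  {x | x ≤ c ∧ f x ≤ t ∧ ∀ j, ¬ (x + Pi.single j 1 ≤ c) ∨ t < f (x + Pi.single j 1)}

/-- `I(A)`: the minimal elements among the vectors of the box `{x : 0 ≤ x ≤ c}` that are not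
below any member of `A`. -/
def MinNotBelow {n : ℕ} (c : Fin n → ℕ) (A : Set (Fin n → ℕ)) : Set (Fin n → ℕ) :=
  {x | Minimal (fun x => x ≤ c ∧ ∀ a ∈ A, ¬ x ≤ a) x}

section final

variable {n m : ℕ}

lemma mem_MinNotBelow {c : Fin n → ℕ} {A : Set (Fin n → ℕ)} {x : Fin n → ℕ} :
    x ∈ MinNotBelow c A ↔ Minimal (fun x => x ≤ c ∧ ∀ a ∈ A, ¬ x ≤ a) x := Iff.rfl

/-- monomials as products of univariate functions -/
noncomputable def fac (H : Fin m → Finset (Fin n)) (a : Fin m → ℝ) (d : Fin m → Fin n → ℕ)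
    (j0 : Fin m → Fin n) : Fin m → Fin n → ℕ → ℝ :=
  fun i j k => (if j = j0 i then a i else 1) * (if j ∈ H i then (k : ℝ) ^ d i j else 1)

lemma fac_good (H : Fin m → Finset (Fin n)) (a : Fin m → ℝ) (d : Fin m → Fin n → ℕ)
    (j0 : Fin m → Fin n) (ha : ∀ i, 0 < a i) : Good (fac H a d j0) := by
  have h1 : ∀ i j, 0 ≤ (if j = j0 i then a i else 1 : ℝ) := by
    intro i j; split_ifs
    · exact (ha i).le
    · norm_num
  refine ⟨fun i j => ?_, fun i j => ?_⟩
  · refine mul_nonneg (h1 i j) ?_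
    split_ifs
    · positivity
    · norm_num
  · intro k l hkl
    refine mul_le_mul_of_nonneg_left ?_ (h1 i j)
    split_ifs
    · exact pow_le_pow_left₀ (Nat.cast_nonneg _) (by exact_mod_cast hkl) _
    · exact le_rfl

lemma FF_fac (H : Fin m → Finset (Fin n)) (a : Fin m → ℝ) (d : Fin m → Fin n → ℕ)
    (j0 : Fin m → Fin n) (x : Fin n → ℕ) : FF (fac H a d j0) x = polyVal H a d x := by
  unfold FF polyVal gg fac
  refine sum_congr rfl (fun i _ => ?_)
  rw [prod_mul_distrib]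
  simp

end final

/-- The dual bound, for an arbitrary integer box: with `q = 2 n k^2 (n + 2 m n^2 k + m n (n+1) + m)`
and `k = |Y|`, the number of minimal infeasible vectors that belong to `I(Y)` is at most `q`. -/
theorem result {n m : ℕ} (H : Fin m → Finset (Fin n)) (a : Fin m → ℝ) (d : Fin m → Fin n → ℕ)
    (t : ℝ) (c : Fin n → ℕ) (hH : ∀ i, (H i).Nonempty) (ha : ∀ i, 0 < a i)
    (hd : ∀ i, ∀ j ∈ H i, 1 ≤ d i j) (ht : 0 < t)
    (Y : Finset (Fin n → ℕ)) (hY : (Y : Set (Fin n → ℕ)) ⊆ MaxFeasible c (polyVal H a d) t) :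
    (MinNotBelow c (Y : Set (Fin n → ℕ)) ∩
      MinNotBelow c (MaxFeasible c (polyVal H a d) t)).encard ≤
      ((2 * n * Y.card ^ 2 * (n + 2 * m * n ^ 2 * Y.card + m * n * (n + 1) + m) : ℕ) : ℕ∞) := by
  classical
  set f := polyVal H a d with hf
  set j0 : Fin m → Fin n := fun i => (hH i).choose with hj0
  have hgood := fac_good H a d j0 ha
  have hFF : ∀ x, FF (fac H a d j0) x = f x := FF_fac H a d j0
  have hmono : ∀ x y, x ≤ y → f x ≤ f y := by
    intro x y hxy
    rw [← hFF, ← hFF]; exact FF_mono hgood hxy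
  have hf0 : f 0 = 0 := by
    rw [hf, polyVal]
    refine sum_eq_zero (fun i _ => ?_)
    obtain ⟨j, hj⟩ := hH i
    have : ∏ j ∈ H i, (((0 : Fin n → ℕ) j : ℕ) : ℝ) ^ d i j = 0 := by
      refine prod_eq_zero hj ?_
      have := hd i j hj
      simp only [Pi.zero_apply, Nat.cast_zero]
      exact zero_pow (by omega)
    rw [this, mul_zero]
  -- every feasible vector lies below a maximal feasible one
  have hext : ∀ x, x ≤ c → f x ≤ t → ∃ y ∈ MaxFeasible c f t, x ≤ y := by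
    intro x hxc hx
    have hfin : {y : Fin n → ℕ | x ≤ y ∧ y ≤ c ∧ f y ≤ t}.Finite :=
      (Set.finite_Iic c).subset (fun y hy => hy.2.1)
    obtain ⟨y, hxy, hy⟩ := hfin.exists_le_maximal (a := x) ⟨le_rfl, hxc, hx⟩
    refine ⟨y, ⟨hy.prop.2.1, hy.prop.2.2, fun j => ?_⟩, hxy⟩
    by_contra hcon
    push Not at hcon
    have hle : y ≤ y + Pi.single j 1 := le_self_add
    have h1 := hy.le_of_ge (y := y + Pi.single j 1) ⟨hxy.trans hle, hcon.1, hcon.2⟩ hle
    have h2 : (y + Pi.single j 1 : Fin n → ℕ) j ≤ y j := h1 j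
    rw [Pi.add_apply, Pi.single_eq_same] at h2
    omega
  -- the finite set of vectors to be counted
  set S := MinNotBelow c (Y : Set (Fin n → ℕ)) ∩ MinNotBelow c (MaxFeasible c f t) with hSdef
  have hm1 : ∀ z ∈ S, Minimal (fun x => x ≤ c ∧ ∀ a ∈ (Y : Set (Fin n → ℕ)), ¬ x ≤ a) z :=
    fun z hz => hz.1
  have hm2 : ∀ z ∈ S, Minimal (fun x => x ≤ c ∧ ∀ a ∈ MaxFeasible c f t, ¬ x ≤ a) z :=
    fun z hz => hz.2
  have hSfin : S.Finite := (Set.finite_Iic c).subset (fun z hz => (hm1 z hz).prop.1)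
  have hinf : ∀ z ∈ S, t < f z := by
    intro z hz
    by_contra hcon
    obtain ⟨y, hy, hzy⟩ := hext z (hm1 z hz).prop.1 (not_lt.1 hcon)
    exact (hm2 z hz).prop.2 y hy hzy
  have hcov : ∀ z ∈ S, ∀ x, x < z → ∃ y ∈ Y, x ≤ y := by
    intro z hz x hx
    by_contra hcon
    push Not at hcon
    have h1 := (hm1 z hz).le_of_le (y := x) ⟨hx.le.trans (hm1 z hz).prop.1,
      fun a ha => hcon a ha⟩ hx.le
    exact absurd h1 (not_le_of_gt hx)
  rw [hSfin.encard_eq_coe_toFinset_card]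
  norm_cast
  set Z := hSfin.toFinset with hZdef
  have hmemZ : ∀ z, z ∈ Z ↔ z ∈ S := fun z => hSfin.mem_toFinset
  by_cases hZne : Z.Nonempty
  swap
  · rw [not_nonempty_iff_eq_empty] at hZne
    rw [hZne]; simp
  by_cases hYne : Y.Nonempty
  swap
  · -- no `Y`: the only candidate is `0`, which is feasible
    exfalso
    rw [not_nonempty_iff_eq_empty] at hYne
    obtain ⟨z, hz⟩ := hZne
    rw [hmemZ] at hz
    have h0 : z = 0 := by
      by_contra hne
      have hlt : (0 : Fin n → ℕ) < z := lt_of_le_of_ne (fun j => Nat.zero_le _) (Ne.symm hne)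
      obtain ⟨y, hy, _⟩ := hcov z hz 0 hlt
      rw [hYne] at hy
      exact absurd hy (notMem_empty y)
    have := hinf z hz
    rw [h0, hf0] at this
    linarith
  obtain ⟨z0, hz0, hz0min⟩ := exists_min_image Z f hZne
  have hSep : Sep (fac H a d j0) (f z0) Y Z := by
    refine ⟨fun y hy => ?_, fun z hz => ?_, fun z hz x hx => ?_⟩
    · rw [hFF]
      exact lt_of_le_of_lt (hY hy).2.1 (hinf z0 ((hmemZ z0).1 hz0))
    · rw [hFF]; exact hz0min z hz
    · exact hcov z ((hmemZ z).1 hz) x hx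
  have := level_bound hgood hSep hYne
  rw [Fintype.card_fin] at this
  refine this.trans (le_of_eq ?_)
  ring

end Pool.Agent.Results.MP_51bff2_lc.DualBound
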